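import Mathlib

namespace Pool.Agent.H.MP_03af15_an
open Finset Polynomial

theorem root_ind (S : ℂ → Prop) (P : ℂ[X] → Prop) (h0 : ∀ c : ℂ, c ≠ 0 → P (C c))
    (h1 : ∀ (q : ℂ[X]) (s : ℂ), S s → q ≠ 0 → P q → P ((X + C s) * q)) :
    ∀ q : ℂ[X], q ≠ 0 → (∀ z, q.eval z = 0 → S (-z)) → P q := by
  intro q
  induction hn : q.natDegree generalizing q with
  | zero =>
    intro hq _
    rw [eq_C_of_natDegree_eq_zero hn]
    refine h0 _ (fun h => hq ?_)
    rw [eq_C_of_natDegree_eq_zero hn, h, map_zero]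
  | succ n ih =>
    intro q0 hq
    obtain ⟨z, hz⟩ := IsAlgClosed.exists_root q (by
      rw [degree_eq_natDegree q0, hn]; exact_mod_cast Nat.succ_ne_zero n)
    obtain ⟨r, hr⟩ := dvd_iff_isRoot.mpr hz
    have e : X - C z = X + C (-z) := by rw [sub_eq_add_neg, ← C_neg]
    have r0 : r ≠ 0 := by rintro rfl; exact q0 (by simpa using hr)
    have dr : r.natDegree = n := by
      rw [hr, natDegree_mul (X_sub_C_ne_zero z) r0, natDegree_X_sub_C] at hn
      omega
    rw [hr, e]
    exact h1 r _ (hq z hz) r0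
      (ih r dr r0 (fun w hw => hq w (by rw [hr, eval_mul, hw, mul_zero])))

theorem msum_pos (s : Multiset ℝ) (h : ∀ t ∈ s, 0 < t) (h0 : s ≠ 0) : 0 < s.sum := by
  obtain ⟨a, ha⟩ := Multiset.exists_mem_of_ne_zero h0
  exact (h a ha).trans_le (Multiset.single_le_sum (fun x hx => (h x hx).le) a ha)

theorem lag_pos (x r z : ℂ) (hx : 0 ≤ x.im) (hr : 0 ≤ r.im) (hz : z.im < 0) (h : r ≠ x) :
    0 < (Complex.I * ((starRingEnd ℂ) r - x) * ((r - z) / (x - z))).re := by
  have n0 : 0 < Complex.normSq (x - z) := Complex.normSq_pos.mpr (by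
    intro e; rw [sub_eq_zero] at e; rw [e] at hx; linarith)
  have n1 : 0 < Complex.normSq (r - x) := Complex.normSq_pos.mpr (sub_ne_zero.mpr h)
  rw [← mul_div_assoc, Complex.div_re, ← add_div]
  refine div_pos ?_ n0
  simp only [Complex.normSq_apply, Complex.mul_re, Complex.mul_im, Complex.sub_re, Complex.sub_im,
    Complex.I_re, Complex.I_im, Complex.conj_re, Complex.conj_im] at n1 ⊢
  have a1 := mul_nonneg hx (add_nonneg (mul_self_nonneg (r.re - z.re)) (mul_self_nonneg (r.im - z.im)))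
  have a2 := mul_nonneg hr (add_nonneg (mul_self_nonneg (x.re - z.re)) (mul_self_nonneg (x.im - z.im)))
  have a3 := mul_pos (neg_pos.mpr hz) n1
  nlinarith

/-- Laguerre: polar derivative keeps a closed half-plane free of zeros -/
theorem laguerre (u v : ℂ) (hu : u ≠ 0) (f : ℂ[X]) (n : ℕ) (hn : 0 < n) (hd : f.natDegree ≤ n)
    (hf : ∀ t, 0 ≤ (u * t + v).im → f.eval t ≠ 0) (r x : ℂ) (hr : 0 ≤ (u * r + v).im)
    (hx : 0 ≤ (u * x + v).im) : n * f.eval x + (r - x) * (derivative f).eval x ≠ 0 := by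
  have px := hf x hx
  have n0 : (n : ℂ) ≠ 0 := by exact_mod_cast hn.ne'
  by_cases hrx : r = x
  · rw [hrx, sub_self, zero_mul, add_zero]; exact mul_ne_zero n0 px
  have p0 : f ≠ 0 := by rintro rfl; simp at px
  have e := (IsAlgClosed.splits f).eval_derivative_div_eval_of_ne_zero px
  have cd : f.roots.card = f.natDegree := IsAlgClosed.card_roots_eq_natDegree
  by_cases m0 : f.roots = 0
  · rw [m0] at e
    simp only [Multiset.map_zero, Multiset.sum_zero, div_eq_zero_iff] at e
    rw [e.resolve_right px, mul_zero, add_zero]; exact mul_ne_zero n0 px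
  obtain ⟨κ, hκ⟩ : ∃ κ, κ = Complex.I * ((starRingEnd ℂ) (u * r + v) - (u * x + v)) := ⟨_, rfl⟩
  have k0 : 0 ≤ κ.re := by
    rw [hκ]
    simp only [Complex.mul_re, Complex.I_re, Complex.I_im, Complex.sub_im, Complex.conj_im]
    linarith
  have out : ∀ z ∈ f.roots, (u * z + v).im < 0 := fun z hz => by
    by_contra hh
    exact hf z (not_lt.mp hh) ((mem_roots p0).mp hz)
  have e2 : (r - x) * (f.roots.map fun z => 1 / (x - z)).sum + f.roots.card =
      (f.roots.map fun z => (r - z) / (x - z)).sum := by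
    rw [← Multiset.sum_map_mul_left, ← nsmul_one, ← Multiset.sum_replicate,
      ← Multiset.map_const' f.roots (1:ℂ), ← Multiset.sum_map_add]
    refine congrArg _ (Multiset.map_congr rfl (fun z hz => ?_))
    have : x - z ≠ 0 := by
      intro h; rw [sub_eq_zero] at h; have := out z hz; rw [← h] at this; linarith
    field_simp; ring
  have pos : 0 < (κ * (f.roots.map fun z => (r - z) / (x - z)).sum).re := by
    rw [← Multiset.sum_map_mul_left]
    have := map_multiset_sum Complex.reAddGroupHom (f.roots.map fun z => κ * ((r - z) / (x - z)))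
    rw [Complex.coe_reAddGroupHom] at this
    rw [this]
    refine msum_pos _ (fun t ht => ?_) (by simpa using m0)
    simp only [Multiset.map_map, Multiset.mem_map, Function.comp_apply] at ht
    obtain ⟨z, hz, rfl⟩ := ht
    have := lag_pos (u * x + v) (u * r + v) (u * z + v) hx hr (out z hz)
      (fun h => hrx (mul_left_cancel₀ hu (add_right_cancel h)))
    rwa [show u * r + v - (u * z + v) = u * (r - z) by ring,
      show u * x + v - (u * z + v) = u * (x - z) by ring, mul_div_mul_left _ _ hu, ← hκ] at this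
  intro h
  have e3 : (r - x) * ((derivative f).eval x / f.eval x) = -n := by
    field_simp; linear_combination h
  rw [← e2, ← e, e3, cd] at pos
  have : (κ * (-(n:ℂ) + (f.natDegree : ℂ))).re = κ.re * (-(n:ℝ) + f.natDegree) := by
    simp [Complex.mul_re]
  have hd' : (f.natDegree : ℝ) ≤ n := by exact_mod_cast hd
  rw [this] at pos
  nlinarith

noncomputable def Dp : ℕ → (ℕ → ℂ) → ℂ[X]
  | 0, φ => C (φ 0)
  | n + 1, φ => X * Dp n φ + Dp n (fun j => φ (j + 1))

theorem Dp_deg (n : ℕ) (φ : ℕ → ℂ) : (Dp n φ).natDegree ≤ n := by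
  induction n generalizing φ with
  | zero => simp [Dp]
  | succ n ih =>
    refine (natDegree_add_le _ _).trans (max_le ?_ ((ih _).trans (Nat.le_succ n)))
    refine natDegree_mul_le.trans ?_
    rw [natDegree_X]; have := ih φ; omega

theorem Dp_der (n : ℕ) (φ : ℕ → ℂ) : derivative (Dp (n + 1) φ) = ((n : ℂ[X]) + 1) * Dp n φ := by
  induction n generalizing φ with
  | zero => simp [Dp]
  | succ n ih =>
    rw [Dp, derivative_add, derivative_mul, ih, ih, derivative_X, Dp]
    push_cast; ring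

theorem Dp_lin (n : ℕ) (φ ψ : ℕ → ℂ) (r : ℂ) :
    Dp n (fun j => r * φ j + ψ j) = C r * Dp n φ + Dp n ψ := by
  induction n generalizing φ ψ with
  | zero => simp [Dp]
  | succ n ih => rw [Dp, Dp, Dp, ih, ih]; ring

noncomputable def pr (c : ℂ[X]) (φ : ℕ → ℂ) : ℂ := c.sum (fun k a => a * φ k)

theorem pr_range (c : ℂ[X]) (φ : ℕ → ℂ) (n : ℕ) (h : c.natDegree < n) :
    pr c φ = ∑ k ∈ range n, c.coeff k * φ k :=
  sum_over_range' c (f := fun k a => a * φ k) (fun _ => zero_mul _) n h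

theorem pr_mul (c : ℂ[X]) (φ : ℕ → ℂ) (r : ℂ) :
    pr ((X + C r) * c) φ = pr c (fun j => r * φ j + φ (j + 1)) := by
  rw [pr_range _ _ (c.natDegree + 1 + 1) (by
    refine natDegree_mul_le.trans_lt ?_
    rw [natDegree_X_add_C]; omega), pr_range _ _ _ (Nat.lt_succ_self _)]
  simp only [add_mul, coeff_add, coeff_C_mul, Finset.sum_add_distrib, mul_add]
  rw [Finset.sum_range_succ', Finset.sum_range_succ _ (c.natDegree + 1),
    coeff_eq_zero_of_natDegree_lt (Nat.lt_succ_self _)]
  simp only [coeff_X_mul, mul_coeff_zero, coeff_X_zero, zero_mul, mul_zero, add_zero]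
  rw [add_comm]
  congr 1
  exact Finset.sum_congr rfl (fun k _ => by ring)

theorem pr_pow (n : ℕ) (t : ℂ) (φ : ℕ → ℂ) : pr ((X + C t) ^ n) φ = (Dp n φ).eval t := by
  induction n generalizing φ with
  | zero => simp [Dp, pr_range 1 φ 1 (by simp)]
  | succ n ih => rw [pow_succ', pr_mul, ih, Dp_lin, Dp]; simp

/-- Grace-Walsh-Szego coincidence theorem for a closed half-plane -/
theorem gws (u v : ℂ) (hu : u ≠ 0) (c : ℂ[X]) (c0 : c ≠ 0)
    (hc : ∀ z, c.eval z = 0 → 0 ≤ (u * (-z) + v).im) (φ : ℕ → ℂ)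
    (hφ : ∀ t, 0 ≤ (u * t + v).im → (Dp c.natDegree φ).eval t ≠ 0) : pr c φ ≠ 0 := by
  refine root_ind (fun s => 0 ≤ (u * s + v).im) (fun c => ∀ φ : ℕ → ℂ,
    (∀ t, 0 ≤ (u * t + v).im → (Dp c.natDegree φ).eval t ≠ 0) → pr c φ ≠ 0) ?_ ?_ c c0 hc φ hφ
  · intro c hc φ h
    have := h (-v / u) (by rw [mul_div_cancel₀ _ hu]; simp)
    rw [pr_range _ _ 1 (by simp)]
    simpa [Dp, hc] using this
  · intro q s hs q0 ih φ h
    rw [natDegree_mul (X_add_C_ne_zero _) q0, natDegree_X_add_C, add_comm] at h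
    rw [pr_mul]
    refine ih _ (fun t ht h0 => ?_)
    refine laguerre u v hu _ (q.natDegree + 1) (Nat.succ_pos _) (Dp_deg _ φ) h s t hs ht ?_
    rw [Dp_lin] at h0
    rw [Dp_der, Dp]
    simp only [eval_add, eval_mul, eval_C, eval_X, eval_natCast, eval_one] at h0 ⊢
    push_cast
    linear_combination ((q.natDegree : ℂ) + 1) * h0

end Pool.Agent.H.MP_03af15_an
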