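import Mathlib
import Pool.Agent.H.MP_03af15_an.A

namespace Pool.Agent.H.MP_03af15_an
open Finset Polynomial

theorem jou0 (A B ξ : ℂ) (l : ℝ) (l0 : 0 ≤ l) (l1 : l ≤ 1) (hAB : A * B = 1)
    (hξ : ξ = l * A + (1 - l) * B) (h1 : 1 < ‖ξ‖) (hA : 1 ≤ ‖A‖) :
    ∃ c : ℝ, 0 < c ∧ (A + B).im = c * ξ.im ∧ (ξ.im = 0 → 2 * |ξ.re| < (A + B).re * ξ.re) := by
  obtain ⟨r, hr⟩ : ∃ r, r = ‖A‖ := ⟨_, rfl⟩
  rw [← hr] at hA
  have r0 : 0 < r := by linarith
  have eB : B = A⁻¹ := eq_inv_of_mul_eq_one_right hAB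
  have ns : Complex.normSq A = r ^ 2 := by rw [Complex.normSq_eq_norm_sq, hr]
  have nB : ‖B‖ = r⁻¹ := by rw [eB, norm_inv, hr]
  have b1 : ‖ξ‖ ≤ l * r + (1 - l) * r⁻¹ := by
    rw [hξ]
    refine (norm_add_le _ _).trans (le_of_eq ?_)
    rw [norm_mul, norm_mul, ← hr, nB, Complex.norm_real, Real.norm_of_nonneg l0]
    congr 2
    rw [← Complex.ofReal_one, ← Complex.ofReal_sub, Complex.norm_real,
      Real.norm_of_nonneg (by linarith)]
  have b2 : r < l * r ^ 2 + (1 - l) := by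
    have := mul_lt_mul_of_pos_right (h1.trans_le b1) r0
    rw [add_mul, mul_assoc (1 - l), inv_mul_cancel₀ r0.ne'] at this
    linarith
  have r1 : 1 < r := by
    by_contra hh
    have : r = 1 := le_antisymm (not_lt.mp hh) hA
    rw [this] at b2; linarith
  have b3 : 1 - l < l * r ^ 2 := by
    by_contra hh
    rw [not_lt] at hh
    have s1 : 0 ≤ r ^ 2 - 1 := by nlinarith
    have := mul_le_mul_of_nonneg_right hh s1
    have := mul_lt_mul_of_pos_right b2 (by positivity : 0 < 1 + r ^ 2)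
    nlinarith [mul_nonneg r0.le (sq_nonneg (r - 1))]
  have s0 : 0 < r ^ 2 := by positivity
  have iB : B.im = -A.im / r ^ 2 := by rw [eB, Complex.inv_im, ns]
  have rB : B.re = A.re / r ^ 2 := by rw [eB, Complex.inv_re, ns]
  have iξ : ξ.im = A.im * ((l * r ^ 2 - (1 - l)) / r ^ 2) := by
    rw [hξ]; simp [iB]; field_simp; ring
  have rξ : ξ.re = A.re * ((l * r ^ 2 + (1 - l)) / r ^ 2) := by
    rw [hξ]; simp [rB]; field_simp
  have p1 : 0 < l * r ^ 2 - (1 - l) := by linarith
  have p2 : 0 < (l * r ^ 2 + (1 - l)) / r ^ 2 := div_pos (by linarith) s0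
  refine ⟨(r ^ 2 - 1) / (l * r ^ 2 - (1 - l)), div_pos (by nlinarith) p1, ?_, fun h => ?_⟩
  · obtain ⟨D, hD⟩ : ∃ D, D = l * r ^ 2 - (1 - l) := ⟨_, rfl⟩
    rw [Complex.add_im, iB, iξ, ← hD]
    rw [← hD] at p1
    field_simp; ring
  · rw [iξ] at h
    have a0 : A.im = 0 := (mul_eq_zero.mp h).resolve_right (div_pos p1 s0).ne'
    have a1 : A.re * A.re = r ^ 2 := by rw [← ns, Complex.normSq_apply, a0]; ring
    have a2 : |A.re| = r := by
      rw [← abs_of_pos r0]; exact sq_eq_sq_iff_abs_eq_abs _ _ |>.mp (by rw [← a1]; ring)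
    rw [rξ, abs_mul, a2, abs_of_pos p2, Complex.add_re, rB, ← mul_assoc, ← mul_assoc]
    refine mul_lt_mul_of_pos_right ?_ p2
    rw [add_mul, div_mul_eq_mul_div, a1, div_self s0.ne']
    nlinarith

theorem jou (T Q ξ : ℂ) (x : ℝ) (x0 : -1 ≤ x) (x1 : x ≤ 1) (hQ : Q ^ 2 = T ^ 2 - 1)
    (hξ : ξ = T - x * Q) (h1 : 1 < ‖ξ‖) :
    ∃ c : ℝ, 0 < c ∧ T.im = c * ξ.im ∧ (ξ.im = 0 → |ξ.re| < T.re * ξ.re) := by
  have hAB : (T + Q) * (T - Q) = 1 := by linear_combination -hQ
  have key : ∃ c : ℝ, 0 < c ∧ (T + T).im = c * ξ.im ∧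
      (ξ.im = 0 → 2 * |ξ.re| < (T + T).re * ξ.re) := by
    by_cases h : 1 ≤ ‖T + Q‖
    · have := jou0 (T + Q) (T - Q) ξ ((1 - x) / 2) (by linarith) (by linarith) hAB
        (by rw [hξ]; push_cast; ring) h1 h
      rwa [show T + Q + (T - Q) = T + T by ring] at this
    · have h2 : 1 ≤ ‖T - Q‖ := by
        have := congrArg norm hAB
        rw [norm_mul, norm_one] at this
        nlinarith [norm_nonneg (T + Q), norm_nonneg (T - Q)]
      have := jou0 (T - Q) (T + Q) ξ ((1 + x) / 2) (by linarith) (by linarith)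
        (by rw [mul_comm, hAB]) (by rw [hξ]; push_cast; ring) h1 h2
      rwa [show T - Q + (T + Q) = T + T by ring] at this
  obtain ⟨c, c0, c1, c2⟩ := key
  rw [Complex.add_im] at c1
  rw [Complex.add_re] at c2
  exact ⟨c / 2, by linarith, by linarith, fun h => by linarith [c2 h]⟩

theorem rec_all (a x t : ℂ) (E : ℕ → ℂ) (hE : ∀ j, (a + j) * E (j + 1) = (x - j) * E j)
    (F : ℕ → ℕ → ℂ) (F0 : ∀ j, F 0 j = E j) (F1 : ∀ k j, F (k + 1) j = t * F k j + F k (j + 1))
    (k j : ℕ) : (a + j) * F (k + 1) (j + 1) + (k + 1) * (F k (j + 2) + F k (j + 1)) +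
      (j - x) * F (k + 1) j = 0 := by
  induction k generalizing j with
  | zero =>
    have h1 := hE j
    have h2 := hE (j + 1)
    simp only [F1, F0]
    push_cast at h2 ⊢
    linear_combination t * h1 + h2
  | succ k ih =>
    have h1 := ih j
    have h2 := ih (j + 1)
    rw [F1 (k + 1) (j + 1), F1 (k + 1) j, F1 k (j + 2), F1 k (j + 1)]
    rw [F1 k (j + 1)] at h1
    rw [F1 k (j + 1 + 1), F1 k (j + 1)] at h2
    push_cast at h2 ⊢
    simp only [add_assoc, Nat.reduceAdd] at h1 h2 ⊢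
    linear_combination t * h1 + h2

theorem rec_f (a x t : ℂ) (E : ℕ → ℂ) (hE : ∀ j, (a + j) * E (j + 1) = (x - j) * E j) (k : ℕ) :
    (a + k) * (Dp (k + 1) E).eval t = ((2 * t - 1) * (k + a / 2) + (x + a / 2)) * (Dp k E).eval t
      - k * (t ^ 2 - t) * (Dp (k - 1) E).eval t := by
  rcases k with _ | k
  · have := hE 0
    simp [Dp] at this ⊢
    linear_combination this
  · have F1 : ∀ k j, (Dp (k + 1) (fun i => E (i + j))).eval t =
        t * (Dp k (fun i => E (i + j))).eval t + (Dp k (fun i => E (i + (j + 1)))).eval t := by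
      intro k j
      rw [Dp]
      simp only [eval_add, eval_mul, eval_X, add_assoc, add_comm 1 j]
    have h := rec_all a x t E hE (fun k j => (Dp k (fun i => E (i + j))).eval t)
      (fun j => by simp [Dp]) F1 k 0
    have h1 := F1 (k + 1) 0
    have h2 := F1 k 0
    have h3 := F1 k 1
    simp only [add_zero, zero_add, Nat.add_sub_cancel, Nat.cast_zero] at h h1 h2 h3 ⊢
    push_cast
    linear_combination h + (a + k + 1) * h1 + (k + 1) * (1 - t) * h2 + (k + 1) * h3

theorem numr (a : ℝ) (ha : 0 < a) (n : ℕ) (T q ω : ℂ) (u : ℕ → ℂ) (u0 : u 0 = 1) (un : u n = 0)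
    (hu : ∀ k : ℕ, q * ((a + k) * u (k + 1) + k * u (k - 1)) = (T * (k + a / 2) + ω) * u k) :
    ∃ s x : ℝ, 0 < s ∧ 1 ≤ s * (a / 2 + n - 1) ∧ -1 ≤ x ∧ x ≤ 1 ∧ -(s * ω) = T - x * (2 * q) := by
  obtain ⟨m, hm⟩ : ∃ m : ℕ → ℝ, ∀ k, m k = ∏ i ∈ range k, (a + i) / (i + 1) := ⟨_, fun _ => rfl⟩
  have m0 : ∀ k, 0 < m k := fun k => by rw [hm]; exact Finset.prod_pos (fun i _ => by positivity)
  have m1 : ∀ k : ℕ, m (k + 1) * (k + 1) = m k * (a + k) := fun k => by
    rw [hm, hm, Finset.prod_range_succ]; field_simp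
  obtain ⟨p, rfl⟩ : ∃ p, n = p + 1 := ⟨n - 1, by
    rcases n with _ | n
    · rw [u0] at un; exact absurd un one_ne_zero
    · rfl⟩
  obtain ⟨N, hN⟩ : ∃ N, N = ∑ k ∈ range (p + 1), m k * Complex.normSq (u k) := ⟨_, rfl⟩
  obtain ⟨K0, hK0⟩ : ∃ K, K = ∑ k ∈ range (p + 1), m k * (k + a / 2) * Complex.normSq (u k) :=
    ⟨_, rfl⟩
  obtain ⟨K1, hK1⟩ : ∃ K, K = ∑ k ∈ range p,
    m k * (a + k) * ((starRingEnd ℂ) (u k) * u (k + 1)).re := ⟨_, rfl⟩
  have k0 : 0 < K0 := by
    rw [hK0]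
    refine Finset.sum_pos' (fun k _ => mul_nonneg (by have := m0 k; positivity)
      (Complex.normSq_nonneg _)) ⟨0, by simp, ?_⟩
    have := m0 0
    simp [u0]; positivity
  have k1 : K0 ≤ N * (a / 2 + p) := by
    rw [hK0, hN, Finset.sum_mul]
    refine Finset.sum_le_sum (fun k hk => ?_)
    have : (k : ℝ) ≤ p := by exact_mod_cast Nat.lt_succ_iff.mp (Finset.mem_range.mp hk)
    nlinarith [mul_nonneg (m0 k).le (Complex.normSq_nonneg (u k))]
  have k2 : |K1| ≤ K0 := by
    have e1 : ∑ k ∈ range p, m k * (a + k) * Complex.normSq (u k) ≤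
        ∑ k ∈ range (p + 1), m k * (a + k) * Complex.normSq (u k) := by
      rw [Finset.sum_range_succ]
      have : 0 ≤ m p * (a + p) * Complex.normSq (u p) :=
        mul_nonneg (by have := m0 p; positivity) (Complex.normSq_nonneg _)
      linarith
    have e2 : ∑ k ∈ range p, m k * (a + k) * Complex.normSq (u (k + 1)) =
        ∑ k ∈ range (p + 1), m k * k * Complex.normSq (u k) := by
      rw [Finset.sum_range_succ']
      simp only [Nat.cast_zero, mul_zero, zero_mul, add_zero, Nat.cast_add, Nat.cast_one, m1]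
    have e3 : 2 * K0 = ∑ k ∈ range (p + 1), m k * (a + k) * Complex.normSq (u k) +
        ∑ k ∈ range (p + 1), m k * k * Complex.normSq (u k) := by
      rw [hK0, Finset.mul_sum, ← Finset.sum_add_distrib]
      exact Finset.sum_congr rfl (fun k _ => by ring)
    have e4 : 2 * |K1| ≤ ∑ k ∈ range p, m k * (a + k) * Complex.normSq (u k) +
        ∑ k ∈ range p, m k * (a + k) * Complex.normSq (u (k + 1)) := by
      rw [hK1, ← Finset.sum_add_distrib]
      refine (mul_le_mul_of_nonneg_left (Finset.abs_sum_le_sum_abs _ _) zero_le_two).trans ?_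
      rw [Finset.mul_sum]
      refine Finset.sum_le_sum (fun k _ => ?_)
      have w0 : 0 ≤ m k * (a + k) := by have := m0 k; positivity
      rw [abs_mul, abs_of_nonneg w0, ← mul_add, mul_left_comm]
      refine mul_le_mul_of_nonneg_left ?_ w0
      simp only [Complex.mul_re, Complex.conj_re, Complex.conj_im, Complex.normSq_apply]
      rw [← le_div_iff₀' two_pos, abs_le]
      constructor
      · nlinarith [sq_nonneg ((u k).re + (u (k + 1)).re), sq_nonneg ((u k).im + (u (k + 1)).im)]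
      · nlinarith [sq_nonneg ((u k).re - (u (k + 1)).re), sq_nonneg ((u k).im - (u (k + 1)).im)]
    linarith
  have main : q * (2 * K1) = T * K0 + ω * N := by
    have s1 : ∑ k ∈ range (p + 1), (m k : ℂ) * (starRingEnd ℂ) (u k) *
        (q * ((a + k) * u (k + 1) + k * u (k - 1))) = T * K0 + ω * N := by
      rw [hK0, hN]
      push_cast
      rw [Finset.mul_sum, Finset.mul_sum, ← Finset.sum_add_distrib]
      refine Finset.sum_congr rfl (fun k _ => ?_)
      rw [hu, Complex.normSq_eq_conj_mul_self]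
      ring
    rw [← s1, hK1]
    simp only [mul_add, mul_left_comm _ q, Finset.sum_add_distrib, ← Finset.mul_sum]
    rw [← mul_add]
    congr 1
    rw [Finset.sum_range_succ, un, Finset.sum_range_succ']
    simp only [mul_zero, add_zero, Nat.cast_zero, zero_mul, Nat.add_sub_cancel]
    push_cast
    rw [Finset.mul_sum, ← Finset.sum_add_distrib]
    refine Finset.sum_congr rfl (fun k _ => ?_)
    have e : ((m (k + 1) : ℂ)) * (k + 1) = m k * (a + k) := by exact_mod_cast m1 k
    rw [Complex.re_eq_add_conj, map_mul, Complex.conj_conj]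
    linear_combination (-((starRingEnd ℂ) (u (k + 1)) * u k)) * e
  have n0 : 0 < N := by
    by_contra hh
    have := mul_nonpos_of_nonpos_of_nonneg (not_lt.mp hh) (by positivity : 0 ≤ a / 2 + p)
    linarith
  refine ⟨N / K0, K1 / K0, div_pos n0 k0, ?_, ?_, ?_, ?_⟩
  · rw [div_mul_eq_mul_div, le_div_iff₀ k0]; push_cast; linarith
  · rw [le_div_iff₀ k0]; linarith [neg_abs_le K1]
  · rw [div_le_iff₀ k0]; linarith [le_abs_self K1]
  · have : (K0 : ℂ) ≠ 0 := by exact_mod_cast k0.ne'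
    push_cast
    field_simp
    linear_combination main

theorem zero_side (a : ℝ) (ha : 0 < a) (n : ℕ) (x t : ℂ) (E : ℕ → ℂ) (E0 : E 0 = 1)
    (hE : ∀ j, ((a : ℂ) + j) * E (j + 1) = (x - j) * E j) (hx : a / 2 + n - 1 < ‖x + a / 2‖)
    (h0 : (Dp n E).eval t = 0) :
    ∃ c : ℝ, 0 < c ∧ (2 * t - 1).im = -c * x.im ∧
      (x.im = 0 → |x.re + a / 2| < -(2 * t - 1).re * (x.re + a / 2)) := by
  have hr := rec_f a x t E hE
  obtain ⟨q, hq⟩ := IsAlgClosed.exists_pow_nat_eq (t ^ 2 - t) two_pos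
  by_cases q0 : q = 0
  · exfalso
    have t0 : t ^ 2 - t = 0 := by rw [← hq, q0]; simp
    have nT : ‖2 * t - 1‖ = 1 := by
      have : (2 * t - 1) ^ 2 = 1 := by linear_combination 4 * t0
      have := congrArg norm this
      rw [norm_pow, norm_one] at this
      exact (pow_eq_one_iff_of_nonneg (norm_nonneg _) two_ne_zero).mp this
    have : ∀ k ≤ n, (Dp k E).eval t ≠ 0 := by
      intro k hk
      induction k with
      | zero => simp [Dp, E0]
      | succ k ih =>
        intro h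
        have e := hr k
        rw [h, t0, mul_zero, mul_zero, zero_mul, sub_zero] at e
        have e2 := (mul_eq_zero.mp e.symm).resolve_right (ih (by omega))
        have e3 := congrArg norm (eq_neg_of_add_eq_zero_right e2)
        have e4 : ‖(k : ℂ) + a / 2‖ = k + a / 2 := by
          rw [show (k : ℂ) + a / 2 = ((k + a / 2 : ℝ) : ℂ) by push_cast; ring, Complex.norm_real,
            Real.norm_of_nonneg (by positivity)]
        rw [norm_neg, norm_mul, nT, e4] at e3
        have : (k : ℝ) + 1 ≤ n := by exact_mod_cast hk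
        linarith
    exact this n le_rfl h0
  obtain ⟨s, y, s0, s1, y0, y1, e⟩ := numr a ha n (2 * t - 1) q (x + a / 2)
    (fun k => (Dp k E).eval t / q ^ k) (by simp [Dp, E0]) (by simp [h0]) (fun k => by
      have := hr k
      rw [← hq] at this
      rcases k with _ | k
      · simp only [Nat.cast_zero, zero_mul, add_zero, sub_zero, zero_add, pow_one, pow_zero,
          div_one] at this ⊢
        field_simp
        linear_combination 2 * this
      · simp only [Nat.add_sub_cancel] at this ⊢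
        field_simp
        linear_combination (2 * q ^ (2 * k + 2)) * this)
  obtain ⟨c, c0, c1, c2⟩ := jou (2 * t - 1) (2 * q) _ y y0 y1 (by linear_combination 4 * hq) e (by
    rw [norm_neg, norm_mul, Complex.norm_real, Real.norm_of_nonneg s0.le]
    nlinarith)
  have i1 : (-((s : ℂ) * (x + a / 2))).im = -(s * x.im) := by simp
  have i2 : (-((s : ℂ) * (x + a / 2))).re = -(s * (x.re + a / 2)) := by simp
  rw [i1] at c1 c2
  rw [i2, abs_neg, abs_mul, abs_of_pos s0] at c2
  refine ⟨c * s, mul_pos c0 s0, by linarith, fun h => ?_⟩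
  have := c2 (by rw [h]; simp)
  nlinarith

theorem disc (a : ℝ) (ha : 0 < a) (c : ℂ[X]) (c0 : c ≠ 0)
    (hc : ∀ z, c.eval z = 0 → z.im = 0 ∧ -1 ≤ z.re ∧ z.re ≤ 0) (x : ℂ) (E : ℕ → ℂ) (E0 : E 0 = 1)
    (hE : ∀ j, ((a : ℂ) + j) * E (j + 1) = (x - j) * E j) (h0 : pr c E = 0) :
    ‖x + a / 2‖ ≤ a / 2 + c.natDegree - 1 := by
  by_contra hx
  rw [not_le] at hx
  have zs := fun t => zero_side a ha c.natDegree x t E E0 hE hx
  by_cases hi : x.im = 0
  · have w0 : x.re + a / 2 ≠ 0 := by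
      intro h
      obtain ⟨t, ht⟩ : ∃ t, (Dp c.natDegree E).eval t = 0 := by
        by_contra hh
        push Not at hh
        exact gws 1 0 one_ne_zero c c0 (fun z hz => by simp [(hc z hz).1]) E
          (fun t _ => hh t) h0
      obtain ⟨_, _, _, h3⟩ := zs t ht
      have := h3 hi
      rw [h] at this
      simp at this
    refine gws (2 * Complex.I * ((x.re + a / 2 : ℝ) : ℂ))
      (Complex.I * ((|x.re + a / 2| - (x.re + a / 2) : ℝ) : ℂ))
      (mul_ne_zero (mul_ne_zero two_ne_zero Complex.I_ne_zero) (Complex.ofReal_ne_zero.mpr w0))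
      c c0 (fun z hz => ?_) E (fun t ht h => ?_) h0
    · obtain ⟨z1, z2, z3⟩ := hc z hz
      obtain ⟨w, hw⟩ : ∃ w, w = x.re + a / 2 := ⟨_, rfl⟩
      rw [← hw]
      simp [z1]
      nlinarith [le_abs_self w, neg_abs_le w]
    · obtain ⟨_, _, _, h3⟩ := zs t h
      have := h3 hi
      obtain ⟨w, hw⟩ : ∃ w, w = x.re + a / 2 := ⟨_, rfl⟩
      rw [← hw] at this ht
      simp at this ht
      linarith
  · refine gws (x.im : ℂ) 0 (Complex.ofReal_ne_zero.mpr hi) c c0 (fun z hz => ?_) E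
      (fun t ht h => ?_) h0
    · simp [(hc z hz).1]
    · obtain ⟨d, d0, d1, _⟩ := zs t h
      have e1 : (2 * t - 1).im = 2 * t.im := by simp
      have e2 : ((x.im : ℂ) * t + 0).im = x.im * t.im := by simp
      rw [e1] at d1
      rw [e2] at ht
      have := mul_pos d0 (mul_self_pos.mpr hi)
      have e3 : x.im * (2 * t.im) = x.im * (-d * x.im) := by rw [d1]
      linarith

end Pool.Agent.H.MP_03af15_an
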